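import Mathlib
import Pool.Agent.H979N.IdxE
import Pool.Agent.H979N.IdxF

/-!
# The largest injectivity index for bond dimension three and four
-/

namespace Pool.Agent.Results.MP_4e951d_mp.ThreeAndFour

open Matrix
open Pool.Agent.Results.MP_4e951d_mp.IndexWithinOne
open Pool.Agent.Results.MP_8bfff4_mp.ExactValue
open Pool.Agent.H979N

/-- what is known about a tuple whose index exceeds `D ^ 2 - D + 1` -/
lemma setup {D d : ℕ} (hD : 2 ≤ D) {A : Fin d → Matrix (Fin D) (Fin D) ℂ} (hA : Normal A)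
    (hcase : D ^ 2 - D + 1 < injIndex A) :
    ∃ Y ∈ Submodule.span ℂ (Set.range A), IsUnit Y ∧ injIndex A = D * D - D + 2 ∧
      (Submodule.span ℂ (Set.range A)) ^ (injIndex A) = ⊤ ∧
      (∀ i, i < injIndex A → (Submodule.span ℂ (Set.range A)) ^ i ≠ ⊤) ∧
      (∀ M ∈ (Submodule.span ℂ (Set.range A)) ^ (D * D - D + 1), M.trace = 0) := by
  have hDD : 2 * 2 ≤ D * D := Nat.mul_le_mul hD hD
  have hD1 : 1 ≤ D := by omega
  obtain ⟨h1, h2⟩ := (IndexWithinOne.result.2.2.2.2 D d A hD1 hA).resolve_left (by omega)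
  obtain ⟨hL1, hL⟩ := injIndex_mem hA
  rw [prodSpan_eq] at hL
  obtain ⟨Y, hY, hYu⟩ : ∃ Y ∈ Submodule.span ℂ (Set.range A), IsUnit Y := by
    by_contra hcon
    push Not at hcon
    have := IndexWithinOne.result.2.2.2.1 D d A hD1 hA (by
      intro c
      apply hcon
      exact Submodule.sum_mem _ fun i _ => Submodule.smul_mem _ _ (Submodule.subset_span ⟨i, rfl⟩))
    omega
  have hmin : ∀ i, i < injIndex A → (Submodule.span ℂ (Set.range A)) ^ i ≠ ⊤ := by
    intro i hi htop
    rcases Nat.eq_zero_or_pos i with h0 | h0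
    · subst h0
      have h6 := fr_pow_zero (W := Submodule.span ℂ (Set.range A))
      rw [htop, fr_top] at h6
      omega
    · have := injIndex_le h0 (by rw [prodSpan_eq]; exact htop)
      omega
  refine ⟨Y, hY, hYu, ?_, hL, hmin, ?_⟩
  · rw [h1, pow_two]
  · intro M hM
    rw [← prodSpan_eq, ← pow_two] at hM
    exact (h2 M).1 hM

/-- a member of rank at most one is excluded -/
lemma rank_ge_two {D d : ℕ} (hD : 1 ≤ D) {A : Fin d → Matrix (Fin D) (Fin D) ℂ} (hA : Normal A)
    (hcase : D ^ 2 - D + 1 < injIndex A) {B : Matrix (Fin D) (Fin D) ℂ}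
    (hB : B ∈ Submodule.span ℂ (Set.range A)) (hB0 : B ≠ 0) : 2 ≤ B.rank := by
  by_contra hcon
  obtain ⟨u, η, hu⟩ := vecMulVec_of_rank (B := B) (by omega)
  obtain ⟨c, hc⟩ := (Submodule.mem_span_range_iff_exists_fun ℂ).1 hB
  have h1 := RankOneFamily.main_upper hD hA (c := c) (u := u) (η := η) (by rw [hc, hu])
    (by rw [hc]; exact hB0)
  omega

lemma bounds {D : ℕ} (hD : 2 ≤ D) {W : Submodule ℂ (Matrix (Fin D) (Fin D) ℂ)}
    {Y : Matrix (Fin D) (Fin D) ℂ} (hY : Y ∈ W) (hYu : IsUnit Y)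
    {N : ℕ} (hN : W ^ N = ⊤) (hmin : ∀ i, i < N → W ^ i ≠ ⊤) {n k : ℕ} (hnk : n + k + n ≤ N)
    (htr : ∀ M ∈ W ^ (n + k + n), M.trace = 0) : 2 * fr (W ^ n) + k ≤ D * D := by
  have h1 := grow_many hD hY hYu hN hmin n k (by omega)
  have h2 := pairing (W := W) (a := n + k) (b := n) htr
  omega

/-- the space spanned by an exceptional tuple is two-dimensional -/
lemma fr_le_two {D d : ℕ} (hD : 1 ≤ D) {A : Fin d → Matrix (Fin D) (Fin D) ℂ} (hA : Normal A)
    (hcase : D ^ 2 - D + 1 < injIndex A) : fr (Submodule.span ℂ (Set.range A)) ≤ 2 := by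
  by_contra h3
  have := SpanDimension.result D d A hD hA (by unfold fr at h3; omega)
  omega

/-- a basis of a space of dimension two -/
lemma exists_pair {D : ℕ} {W : Submodule ℂ (Matrix (Fin D) (Fin D) ℂ)} (h : fr W = 2) :
    ∃ X ∈ W, ∃ Y ∈ W, W ≤ Submodule.span ℂ {X, Y} := by
  obtain ⟨b⟩ : Nonempty (Module.Basis (Fin 2) ℂ W) := ⟨Module.finBasisOfFinrankEq ℂ W h⟩
  refine ⟨b 0, (b 0).2, b 1, (b 1).2, ?_⟩
  intro Z hZ
  have h1 := b.sum_repr ⟨Z, hZ⟩
  rw [Fin.sum_univ_two] at h1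
  rw [Submodule.mem_span_pair]
  refine ⟨b.repr ⟨Z, hZ⟩ 0, b.repr ⟨Z, hZ⟩ 1, ?_⟩
  have h2 := congrArg (fun z : W => (z : Matrix (Fin D) (Fin D) ℂ)) h1
  simpa using h2

lemma upper_three {d : ℕ} {A : Fin d → Matrix (Fin 3) (Fin 3) ℂ} (hA : Normal A) :
    injIndex A ≤ 7 := by
  by_contra hcon
  have hcase : 3 ^ 2 - 3 + 1 < injIndex A := by omega
  obtain ⟨Y, hY, hYu, hN, htop, hmin, htr⟩ := setup (by norm_num) hA hcase
  have hd := fr_le_two (by norm_num) hA hcase
  have hrk := fun B hB hB0 => rank_ge_two (B := B) (by norm_num) hA hcase hB hB0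
  rw [show 3 * 3 - 3 + 2 = 8 by norm_num] at hN
  rw [hN] at htop hmin
  rw [show 3 * 3 - 3 + 1 = 7 by norm_num] at htr
  generalize Submodule.span ℂ (Set.range A) = W at *
  have h2 : fr (W ^ 2) ≤ 3 := by
    have := bounds (by norm_num) hY hYu htop hmin (n := 2) (k := 3) (by norm_num) htr
    omega
  have h1 : 2 ≤ fr W := by
    have := H780W.grow_unit (by norm_num) hY hYu htop hmin 1 (by norm_num)
    rwa [pow_one] at this
  have h3 : 4 ≤ fr (W ^ 3) := H780W.grow_unit (by norm_num) hY hYu htop hmin 3 (by norm_num)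
  obtain ⟨X, hX, Z, hZ, hW⟩ := exists_pair (le_antisymm hd h1)
  rcases dichotomy hX hZ hW (indep_of_fr h1 hW) h2 with h | ⟨B, hB, hB0, hBB⟩
  · have := typeI_three htop h1 h
    omega
  · have h5 := Matrix.rank_add_rank_le_card_of_mul_eq_zero hBB
    have h6 := hrk B hB hB0
    simp only [Fintype.card_fin] at h5
    omega

lemma upper_four {d : ℕ} {A : Fin d → Matrix (Fin 4) (Fin 4) ℂ} (hA : Normal A) :
    injIndex A ≤ 13 := by
  by_contra hcon
  have hcase : 4 ^ 2 - 4 + 1 < injIndex A := by omega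
  obtain ⟨Y, hY, hYu, hN, htop, hmin, htr⟩ := setup (by norm_num) hA hcase
  have hd := fr_le_two (by norm_num) hA hcase
  have hrk := fun B hB hB0 => rank_ge_two (B := B) (by norm_num) hA hcase hB hB0
  rw [show 4 * 4 - 4 + 2 = 14 by norm_num] at hN
  rw [hN] at htop hmin
  rw [show 4 * 4 - 4 + 1 = 13 by norm_num] at htr
  generalize Submodule.span ℂ (Set.range A) = W at *
  have b2 : fr (W ^ 2) ≤ 3 := by
    have := bounds (by norm_num) hY hYu htop hmin (n := 2) (k := 9) (by norm_num) htr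
    omega
  have b3 : fr (W ^ 3) ≤ 4 := by
    have := bounds (by norm_num) hY hYu htop hmin (n := 3) (k := 7) (by norm_num) htr
    omega
  have b4 : fr (W ^ 4) ≤ 5 := by
    have := bounds (by norm_num) hY hYu htop hmin (n := 4) (k := 5) (by norm_num) htr
    omega
  have g := H780W.grow_unit (by norm_num) hY hYu htop hmin
  have h1 : 2 ≤ fr W := by
    have := g 1 (by norm_num)
    rwa [pow_one] at this
  have g2 := g 2 (by norm_num)
  have g3 := g 3 (by norm_num)
  have g4 := g 4 (by norm_num)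
  obtain ⟨-, hex, hun⟩ := H780W.exception (by norm_num) hY hYu htop hmin (by norm_num)
  rw [show 4 * 4 - 4 + 1 = 13 by norm_num] at hex hun
  have h13 := fr_of_rank_one (by norm_num) hex
  obtain ⟨X, hX, Z, hZ, hW⟩ := exists_pair (le_antisymm hd h1)
  rcases dichotomy hX hZ hW (indep_of_fr h1 hW) b2 with h | ⟨B, hB, hB0, hBB⟩
  · have := typeI_count h 13
    omega
  · obtain ⟨P, -, ⟨s, hsW, hPs⟩, hP3⟩ := generic_unit hY hYu 13 hun
    obtain ⟨h4, h5⟩ := hP3 s hPs
    have hu : IsUnit (s 0) := isUnit_of_fr (le_antisymm (fr_le _) h4)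
    apply four_square_zero htop (hsW 0) hu hB hB0 hBB hd ?_ g4 ?_ (hrk B hB hB0) htr h13
    · intro n hn1 hn3
      interval_cases n
      · rw [pow_one]; simp only [Nat.reduceAdd]; omega
      · simp only [Nat.reduceAdd]; omega
      · simp only [Nat.reduceAdd]; omega
    · intro n hn1 hn3
      exact h5 n hn1 (by omega)

/-- two members of small rank exclude the exceptional index -/
lemma upper_rank_sum {D d : ℕ} (hD : 1 ≤ D) {A : Fin d → Matrix (Fin D) (Fin D) ℂ} (hA : Normal A)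
    {v w : Matrix (Fin D) (Fin D) ℂ} (hv0 : v ≠ 0) (hw0 : w ≠ 0)
    (hvw : Submodule.span ℂ (Set.range A) = Submodule.span ℂ {v, w})
    (hr : v.rank + w.rank ≤ D) : injIndex A ≤ D ^ 2 - D + 1 := by
  by_contra hcase
  push Not at hcase
  have hD2 : 2 ≤ D := by
    by_contra h
    obtain rfl : D = 1 := by omega
    have := upper_one hA
    omega
  obtain ⟨Y, hY, hYu, hN, htop, hmin, htr⟩ := setup hD2 hA hcase
  have hDD : D ≤ D * D := Nat.le_mul_self D
  obtain ⟨-, hex, -⟩ := H780W.exception hD2 hY hYu htop hmin (by omega)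
  have h13 := fr_of_rank_one hD2 hex
  have hv : v ∈ Submodule.span ℂ (Set.range A) := by
    rw [hvw]; exact Submodule.subset_span (by simp)
  have hw : w ∈ Submodule.span ℂ (Set.range A) := by
    rw [hvw]; exact Submodule.subset_span (by simp)
  have := rank_sum (K := D * D - D) htr h13 hv hw hv0 hw0 hvw.le
  omega

/-- **The injectivity index for bond dimension three and four, and a rank condition.**
(1) The largest injectivity index `N(D)` of a normal tuple of `D × D` matrices is `7` for `D = 3`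
and `13` for `D = 4`; together with `N(1) = 1` and `N(2) = 3` this is the value `D² - D + 1` for
all `D ≤ 4`.
(2) For every `D`: if the span of a normal tuple is spanned by two nonzero matrices whose ranks
have sum at most `D`, then its injectivity index is at most `D² - D + 1`. -/
theorem result :
    (IsGreatest (indices 3) 7 ∧ IsGreatest (indices 4) 13) ∧
    (∀ (D d : ℕ) (A : Fin d → Matrix (Fin D) (Fin D) ℂ), 1 ≤ D → Normal A →
      ∀ v w : Matrix (Fin D) (Fin D) ℂ, v ≠ 0 → w ≠ 0 →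
        Submodule.span ℂ (Set.range A) = Submodule.span ℂ {v, w} → v.rank + w.rank ≤ D →
        injIndex A ≤ D ^ 2 - D + 1) := by
  refine ⟨⟨?_, ?_⟩, fun D d A hD hA v w hv0 hw0 hvw hr => upper_rank_sum hD hA hv0 hw0 hvw hr⟩
  · obtain ⟨A, hA, hA2⟩ := lower 3 (by norm_num)
    refine ⟨⟨2, A, by norm_num, hA, le_antisymm (upper_three hA) (by simpa using hA2)⟩, ?_⟩
    rintro L ⟨d, A, -, hA, rfl⟩
    exact upper_three hA
  · obtain ⟨A, hA, hA2⟩ := lower 4 (by norm_num)
    refine ⟨⟨2, A, by norm_num, hA, le_antisymm (upper_four hA) (by simpa using hA2)⟩, ?_⟩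
    rintro L ⟨d, A, -, hA, rfl⟩
    exact upper_four hA

end Pool.Agent.Results.MP_4e951d_mp.ThreeAndFour
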